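import Pool.Agent.H3.Resol

set_option autoImplicit false

namespace Pool.Agent.H3.BoolRing

open Pool.Agent.H3.Cochain

variable (X : Type)

/-- The Boolean ring of functions `(X → 𝔽₂) → 𝔽₂` that depend on finitely many coordinates. -/
def BR : Subring ((X → ZMod 2) → ZMod 2) where
  carrier := {f | ∃ F : Finset X, ∀ a b : X → ZMod 2, (∀ x ∈ F, a x = b x) → f a = f b}
  mul_mem' := by
    classical
    rintro f g ⟨F, hF⟩ ⟨G, hG⟩
    refine ⟨F ∪ G, fun a b h => ?_⟩
    rw [Pi.mul_apply, Pi.mul_apply, hF a b fun x hx => h x (Finset.mem_union_left _ hx),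
      hG a b fun x hx => h x (Finset.mem_union_right _ hx)]
  add_mem' := by
    classical
    rintro f g ⟨F, hF⟩ ⟨G, hG⟩
    refine ⟨F ∪ G, fun a b h => ?_⟩
    rw [Pi.add_apply, Pi.add_apply, hF a b fun x hx => h x (Finset.mem_union_left _ hx),
      hG a b fun x hx => h x (Finset.mem_union_right _ hx)]
  one_mem' := ⟨∅, fun _ _ _ => rfl⟩
  zero_mem' := ⟨∅, fun _ _ _ => rfl⟩
  neg_mem' := by
    rintro f ⟨F, hF⟩
    refine ⟨F, fun a b h => ?_⟩
    rw [Pi.neg_apply, Pi.neg_apply, hF a b h]

variable {X}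

/-- The coordinate functions. -/
def e (x : X) : BR X := ⟨fun a => a x, {x}, fun _ _ h => h x (Finset.mem_singleton_self x)⟩

theorem mul_self' (r : BR X) : r * r = r := by
  apply Subtype.ext
  funext a
  change r.1 a * r.1 a = r.1 a
  generalize r.1 a = t
  revert t
  decide

open Classical in
/-- Substitution: coordinates in `Z` are set equal to `1`. -/
noncomputable def rho (Z : Set X) : BR X →+* BR X where
  toFun f := ⟨fun a => f.1 (fun x => if x ∈ Z then 1 else a x), by
    obtain ⟨F, hF⟩ := f.2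
    refine ⟨F, fun a b h => hF _ _ fun x hx => ?_⟩
    by_cases hZ : x ∈ Z
    · simp [hZ]
    · simp [hZ, h x hx]⟩
  map_one' := rfl
  map_mul' _ _ := rfl
  map_zero' := rfl
  map_add' _ _ := rfl

theorem rho_e_mem (Z : Set X) (x : X) (hx : x ∈ Z) : rho Z (e x) = 1 := by
  apply Subtype.ext
  funext a
  exact if_pos hx

theorem rho_e_not (Z : Set X) (x : X) (hx : x ∉ Z) : rho Z (e x) = e x := by
  apply Subtype.ext
  funext a
  exact if_neg hx

theorem rho_supp (r : BR X) : ∃ F : Finset X, ∀ Z : Set X, Disjoint Z (F : Set X) →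
    rho Z r = r := by
  obtain ⟨F, hF⟩ := r.2
  refine ⟨F, fun Z hZ => ?_⟩
  apply Subtype.ext
  funext a
  refine hF _ _ fun x hx => ?_
  rw [if_neg fun h => Set.disjoint_left.mp hZ h hx]

/-- The substitution on a free module. -/
noncomputable def rhoF (I : Type) (Z : Set X) : (I →₀ BR X) →+ (I →₀ BR X) :=
  Finsupp.mapRange.addMonoidHom (rho Z).toAddMonoidHom

theorem rhoF_apply (I : Type) (Z : Set X) (n : I →₀ BR X) (i : I) :
    rhoF I Z n i = rho Z (n i) := rfl

theorem support (I : Type) : Support (N := I →₀ BR X) (e (X := X)) (rhoF I) where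
  idem x := mul_self' _
  supp n := by
    classical
    choose F hF using fun i => rho_supp (n i)
    refine ⟨n.support.biUnion F, fun Z hZ => ?_⟩
    ext1 i
    rw [rhoF_apply]
    by_cases hi : n i = 0
    · rw [hi, map_zero]
    · apply hF
      refine hZ.mono_right ?_
      intro x hx
      simp only [Finset.coe_biUnion, Set.mem_iUnion]
      exact ⟨i, Finset.mem_coe.mpr (Finsupp.mem_support_iff.mpr hi), hx⟩
  act_mem Z x n hx := by
    ext1 i
    rw [rhoF_apply, rhoF_apply, Finsupp.smul_apply, smul_eq_mul, map_mul, rho_e_mem Z x hx, one_mul]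
  act_not Z x n hx := by
    ext1 i
    rw [rhoF_apply, Finsupp.smul_apply, Finsupp.smul_apply, rhoF_apply, smul_eq_mul, smul_eq_mul,
      map_mul, rho_e_not Z x hx]

variable (X) in
/-- The maximal ideal generated by the coordinates. -/
def m : Ideal (BR X) := Ideal.span (Set.range (e (X := X)))

theorem mem_or (r : BR X) : r ∈ m X ∨ 1 - r ∈ m X := by
  classical
  obtain ⟨F, hF⟩ := r.2
  have key : ∀ G : Finset X, 1 - ∏ x ∈ G, (1 - e x) ∈ m X := by
    intro G
    induction G using Finset.induction_on with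
    | empty => simp
    | insert x G hx ih =>
      rw [Finset.prod_insert hx]
      have : 1 - (1 - e x) * ∏ x ∈ G, (1 - e x)
          = (1 - ∏ x ∈ G, (1 - e x)) + (∏ x ∈ G, (1 - e x)) * e x := by ring
      rw [this]
      exact Ideal.add_mem _ ih (Ideal.mul_mem_left _ _ (Ideal.subset_span ⟨x, rfl⟩))
  have h0 : ∀ s : BR X, (∀ a, s.1 a = 0 → s.1 a = 0) → s.1 0 = 0 →
      (∀ a b : X → ZMod 2, (∀ x ∈ F, a x = b x) → s.1 a = s.1 b) → s ∈ m X := by
    intro s _ hs hF'
    have h1 : s * ∏ x ∈ F, (1 - e x) = 0 := by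
      apply Subtype.ext
      funext a
      by_cases ha : ∀ x ∈ F, a x = 0
      · change s.1 a * _ = 0
        rw [hF' a 0 ha, hs, zero_mul]
      · push Not at ha
        obtain ⟨x, hxF, hx⟩ := ha
        rw [← Finset.mul_prod_erase F _ hxF]
        change s.1 a * ((1 - a x) * _) = 0
        have : (1 : ZMod 2) - a x = 0 := by
          revert hx
          generalize a x = t
          revert t
          decide
        rw [this, zero_mul, mul_zero]
    have h2 : s = s * (1 - ∏ x ∈ F, (1 - e x)) := by rw [mul_sub, h1, mul_one, sub_zero]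
    rw [h2]
    exact Ideal.mul_mem_left _ _ (key F)
  have hz : r.1 0 = 0 ∨ r.1 0 = 1 := by
    generalize r.1 0 = t
    revert t
    decide
  rcases hz with hz | hz
  · exact Or.inl (h0 r (fun _ h => h) hz hF)
  · refine Or.inr (h0 (1 - r) (fun _ h => h) ?_ fun a b h => ?_)
    · change 1 - r.1 0 = 0
      rw [hz, sub_self]
    · change 1 - r.1 a = 1 - r.1 b
      rw [hF a b h]

theorem eval_zero_of_mem (r : BR X) (hr : r ∈ m X) : r.1 0 = 0 := by
  induction hr using Submodule.span_induction with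
  | mem r hr => obtain ⟨x, rfl⟩ := hr; rfl
  | zero => rfl
  | add a b _ _ ha hb => change a.1 0 + b.1 0 = 0; rw [ha, hb, add_zero]
  | smul a b _ hb => change a.1 0 * b.1 0 = 0; rw [hb, mul_zero]

theorem one_notMem : (1 : BR X) ∉ m X := by
  intro h
  have := eval_zero_of_mem 1 h
  change (1 : ZMod 2) = 0 at this
  exact absurd this (by decide)

/-- The simple module. -/
abbrev A (X : Type) : Type := BR X ⧸ m X

theorem smul_eq_zero_of_mem (r : BR X) (hr : r ∈ m X) (a : A X) : r • a = 0 := by
  obtain ⟨s, rfl⟩ := Ideal.Quotient.mk_surjective a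
  change Ideal.Quotient.mk (m X) (r * s) = 0
  rw [Ideal.Quotient.eq_zero_iff_mem]
  exact Ideal.mul_mem_right _ _ hr

theorem baer : Module.Baer (BR X) (A X) := by
  intro I g
  by_cases h : ∃ u ∈ I, u ∉ m X
  · obtain ⟨u, hu, hum⟩ := h
    have hu' : 1 - u ∈ m X := (mem_or u).resolve_left hum
    refine ⟨LinearMap.toSpanSingleton _ _ (g ⟨u, hu⟩), fun x hx => ?_⟩
    rw [LinearMap.toSpanSingleton_apply]
    have h1 := smul_eq_zero_of_mem (1 - u) hu' (g ⟨x, hx⟩)
    rw [sub_smul, one_smul, sub_eq_zero] at h1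
    rw [h1, ← map_smul, ← map_smul]
    congr 1
    apply Subtype.ext
    exact mul_comm _ _
  · push Not at h
    refine ⟨0, fun x hx => ?_⟩
    have h1 := smul_eq_zero_of_mem x (h x hx) (g ⟨x, hx⟩)
    rw [← map_smul] at h1
    rw [LinearMap.zero_apply, ← h1]
    congr 1
    apply Subtype.ext
    exact mul_self' x

theorem injective : Module.Injective (BR X) (A X) := baer.injective

theorem not_projective [Infinite X] : ¬ Module.Projective (BR X) (A X) := by
  classical
  intro h
  obtain ⟨s, hs⟩ := Module.projective_lifting_property (Submodule.mkQ (m X))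
    (LinearMap.id : A X →ₗ[BR X] A X) (Submodule.mkQ_surjective _)
  have h1 : Ideal.Quotient.mk (m X) (s 1) = 1 := LinearMap.congr_fun hs 1
  have h2 : s 1 = 0 := by
    obtain ⟨F, hF⟩ := (s 1).2
    have h3 : ∀ a : X → ZMod 2, (∃ x, a x = 1) → (s 1).1 a = 0 := by
      rintro a ⟨x, hx⟩
      have h4 : e x • s 1 = 0 := by
        rw [← map_smul, smul_eq_zero_of_mem _ (Ideal.subset_span ⟨x, rfl⟩), map_zero]
      have h5 : a x * (s 1).1 a = 0 := congrFun (congrArg Subtype.val h4) a
      rwa [hx, one_mul] at h5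
    obtain ⟨x, hx⟩ := Infinite.exists_notMem_finset F
    apply Subtype.ext
    funext a
    have h6 : (s 1).1 a = (s 1).1 (Function.update a x 1) := by
      refine hF _ _ fun y hy => ?_
      rw [Function.update_of_ne]
      rintro rfl
      exact hx hy
    rw [h6]
    exact h3 _ ⟨x, by simp⟩
  rw [h2, map_zero] at h1
  have : (1 : BR X) ∈ m X := by
    rw [← Ideal.Quotient.eq_zero_iff_mem, map_one]
    exact h1.symm
  exact one_notMem this

end Pool.Agent.H3.BoolRing
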