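import Mathlib

set_option autoImplicit false

namespace Pool.Agent.H3.Cochain

open Cardinal

section D

variable {X : Type} {N : Type} [AddCommGroup N]

/-- The simplicial coboundary, for cochains indexed by lists. -/
def D : List X → (List X → N) → N
  | [], _ => 0
  | x :: L, f => f L - D L (fun L' => f (x :: L'))

@[simp] theorem D_nil (f : List X → N) : D [] f = 0 := rfl

theorem D_cons (x : X) (L : List X) (f : List X → N) :
    D (x :: L) f = f L - D L (fun L' => f (x :: L')) := rfl

theorem D_add (L : List X) (f g : List X → N) : D L (fun L' => f L' + g L') = D L f + D L g := by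
  induction L generalizing f g with
  | nil => simp
  | cons x L ih =>
    rw [D_cons, D_cons, D_cons, ih (fun L' => f (x :: L')) (fun L' => g (x :: L'))]
    abel

theorem D_neg (L : List X) (f : List X → N) : D L (fun L' => - f L') = - D L f := by
  induction L generalizing f with
  | nil => simp
  | cons x L ih =>
    rw [D_cons, D_cons, ih (fun L' => f (x :: L'))]
    abel

theorem D_sub (L : List X) (f g : List X → N) : D L (fun L' => f L' - g L') = D L f - D L g := by
  simp only [sub_eq_add_neg]
  rw [D_add L f (fun L' => - g L'), D_neg]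

theorem D_map {N' : Type} [AddCommGroup N'] (ρ : N →+ N') (L : List X) (f : List X → N) :
    ρ (D L f) = D L (fun L' => ρ (f L')) := by
  induction L generalizing f with
  | nil => simp
  | cons x L ih => rw [D_cons, D_cons, map_sub, ih (fun L' => f (x :: L'))]

theorem D_congr (L : List X) (f g : List X → N)
    (h : ∀ L' : List X, L'.length + 1 = L.length → (∀ x ∈ L', x ∈ L) → f L' = g L') :
    D L f = D L g := by
  induction L generalizing f g with
  | nil => rfl
  | cons x L ih =>
    rw [D_cons, D_cons, h L rfl (fun y hy => List.mem_cons_of_mem _ hy)]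
    congr 1
    apply ih
    intro L' hL' hmem
    apply h
    · simp only [List.length_cons]; omega
    · intro y hy
      rcases List.mem_cons.mp hy with rfl | hy
      · exact List.mem_cons_self
      · exact List.mem_cons_of_mem _ (hmem y hy)

theorem D_D (L : List X) (f : List X → N) : D L (fun L' => D L' f) = 0 := by
  induction L generalizing f with
  | nil => rfl
  | cons x L ih =>
    rw [D_cons]
    have : D L (fun L' => D (x :: L') f) = D L f - D L (fun L' => D L' (fun L'' => f (x :: L''))) := by
      rw [← D_sub]; rfl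
    rw [this, ih (fun L'' => f (x :: L'')), sub_zero, sub_self]

end D

section E

variable {X : Type} {R : Type} [CommRing R] (e : X → R) {N : Type} [AddCommGroup N] [Module R N]

/-- The product of the idempotents along a list. -/
def E (L : List X) : R := (L.map e).prod

@[simp] theorem E_nil : E e [] = 1 := rfl
@[simp] theorem E_cons (x : X) (L : List X) : E e (x :: L) = e x * E e L := by simp [E]

variable {e} (he : ∀ x, e x * e x = e x)

include he in
theorem E_mul_self (L : List X) : E e L * E e L = E e L := by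
  induction L with
  | nil => simp
  | cons x L ih =>
    rw [E_cons, mul_mul_mul_comm, he, ih]

theorem D_smul (r : R) (L : List X) (f : List X → N) : D L (fun L' => r • f L') = r • D L f := by
  induction L generalizing f with
  | nil => simp
  | cons x L ih => rw [D_cons, D_cons, ih (fun L' => f (x :: L')), smul_sub]

include he in
theorem E_D_E (L : List X) (f : List X → N) :
    E e L • D L (fun L' => E e L' • f L') = E e L • D L f := by
  induction L generalizing f with
  | nil => rfl
  | cons x L ih =>
    rw [D_cons, D_cons, smul_sub, smul_sub]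
    have h1 : E e (x :: L) • E e L • f L = E e (x :: L) • f L := by
      rw [E_cons, ← mul_smul, mul_assoc, E_mul_self he]
    have h2 : E e (x :: L) • D L (fun L' => E e (x :: L') • f (x :: L'))
        = E e (x :: L) • D L (fun L' => f (x :: L')) := by
      have : (fun L' => E e (x :: L') • f (x :: L'))
          = fun L' => e x • (E e L' • f (x :: L')) := by
        funext L'; rw [E_cons, mul_smul]
      rw [this, D_smul, ← mul_smul, E_cons]
      have h3 : e x * E e L * e x = e x * E e L := by
        rw [mul_right_comm, he]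
      rw [h3, mul_smul, ih, ← mul_smul]
    rw [h1, h2]

end E

/-! ### Closures under a support function -/

section Closure

variable {X : Type} (F : List X → Finset X) (Y : Set X)

/-- The closure of `S` under `L ↦ F L ∩ Y`. -/
inductive Cl (S : Set X) : X → Prop
  | base {x : X} : x ∈ S → Cl S x
  | step (L : List X) (hL : ∀ z ∈ L, Cl S z) {x : X} (hx : x ∈ F L) (hY : x ∈ Y) : Cl S x

/-- The closure as a set. -/
def cl (S : Set X) : Set X := {x | Cl F Y S x}

variable {F Y}

theorem subset_cl (S : Set X) : S ⊆ cl F Y S := fun _ hx => Cl.base hx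

theorem cl_closed (S : Set X) (L : List X) (hL : ∀ z ∈ L, z ∈ cl F Y S) (x : X) (hx : x ∈ F L)
    (hY : x ∈ Y) : x ∈ cl F Y S := Cl.step L hL hx hY

theorem cl_subset {S : Set X} (hS : S ⊆ Y) : cl F Y S ⊆ Y := by
  intro x hx
  have hx' : Cl F Y S x := hx
  cases hx' with
  | base h => exact hS h
  | step L hL hx hY => exact hY

theorem cl_mono {S T : Set X} (h : S ⊆ T) : cl F Y S ⊆ cl F Y T := by
  intro x hx
  have hx' : Cl F Y S x := hx
  clear hx
  induction hx' with
  | base hx => exact Cl.base (h hx)
  | step L hL hx hY ih => exact Cl.step L (fun z hz => ih z hz) hx hY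

/-- In a directed family, finitely many members of the union lie in one member. -/
theorem list_in_directed {ι : Type*} [Nonempty ι] (S : ι → Set X)
    (hS : ∀ i j, ∃ k, S i ⊆ S k ∧ S j ⊆ S k) (L : List X) (hL : ∀ z ∈ L, ∃ i, z ∈ S i) :
    ∃ i, ∀ z ∈ L, z ∈ S i := by
  induction L with
  | nil => exact ⟨Classical.arbitrary ι, by simp⟩
  | cons x L ih =>
    obtain ⟨i, hi⟩ := ih fun z hz => hL z (List.mem_cons_of_mem _ hz)
    obtain ⟨j, hj⟩ := hL x List.mem_cons_self
    obtain ⟨k, h1, h2⟩ := hS i j
    refine ⟨k, fun z hz => ?_⟩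
    rcases List.mem_cons.mp hz with rfl | hz
    · exact h2 hj
    · exact h1 (hi z hz)

theorem cl_directed {ι : Type*} [Nonempty ι] (S : ι → Set X)
    (hS : ∀ i j, ∃ k, S i ⊆ S k ∧ S j ⊆ S k) {x : X} (hx : x ∈ cl F Y (⋃ i, S i)) :
    ∃ i, x ∈ cl F Y (S i) := by
  have hx' : Cl F Y (⋃ i, S i) x := hx
  clear hx
  induction hx' with
  | base hx =>
    obtain ⟨i, hi⟩ := Set.mem_iUnion.mp hx
    exact ⟨i, Cl.base hi⟩
  | step L hL hx hY ih =>
    obtain ⟨i, hi⟩ := list_in_directed (fun i => cl F Y (S i))
      (fun i j => by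
        obtain ⟨k, h1, h2⟩ := hS i j
        exact ⟨k, cl_mono h1, cl_mono h2⟩) L (fun z hz => ih z hz)
    exact ⟨i, Cl.step L hi hx hY⟩

/-- Finite iterations of the closure step. -/
def it (F : List X → Finset X) (S : Set X) : ℕ → Set X
  | 0 => S
  | k + 1 => it F S k ∪ ⋃ L : List (it F S k), ((F (L.map Subtype.val) : Finset X) : Set X)

theorem it_mono (S : Set X) {k l : ℕ} (h : k ≤ l) : it F S k ⊆ it F S l := by
  induction h with
  | refl => exact subset_rfl
  | step _ ih => exact ih.trans Set.subset_union_left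

theorem cl_subset_it (S : Set X) : cl F Y S ⊆ ⋃ k, it F S k := by
  intro x hx
  have hx' : Cl F Y S x := hx
  clear hx
  induction hx' with
  | base hx => exact Set.mem_iUnion.mpr ⟨0, hx⟩
  | step L hL hx hY ih =>
    obtain ⟨k, hk⟩ := list_in_directed (fun k => it F S k)
      (fun i j => ⟨max i j, it_mono S (le_max_left _ _), it_mono S (le_max_right _ _)⟩) L
      (fun z hz => Set.mem_iUnion.mp (ih z hz))
    refine Set.mem_iUnion.mpr ⟨k + 1, Or.inr (Set.mem_iUnion.mpr
      ⟨L.attach.map (fun z => ⟨z.1, hk z.1 z.2⟩), ?_⟩)⟩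
    have : (L.attach.map (fun z => (⟨z.1, hk z.1 z.2⟩ : it F S k))).map Subtype.val = L := by
      rw [List.map_map]
      exact L.attach_map_subtype_val
    rw [this]
    exact hx

theorem mk_it_le (S : Set X) {κ : Cardinal} (hκ : ℵ₀ ≤ κ) (hS : #S ≤ κ) (k : ℕ) :
    #(it F S k) ≤ κ := by
  induction k with
  | zero => exact hS
  | succ k ih =>
    refine (mk_union_le _ _).trans ?_
    have h1 : #(⋃ L : List (it F S k), ((F (L.map Subtype.val) : Finset X) : Set X)) ≤ κ := by
      refine mk_iUnion_le_sum_mk.trans ?_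
      refine (sum_le_sum _ (fun _ => ℵ₀) fun L => (Finset.countable_toSet _).le_aleph0).trans ?_
      rw [sum_const']
      calc #(List (it F S k)) * ℵ₀ ≤ κ * ℵ₀ := by
            gcongr
            exact (mk_list_le_max _).trans (max_le hκ ih)
        _ = κ := mul_aleph0_eq hκ
    calc #(it F S k) + #(⋃ L : List (it F S k), ((F (L.map Subtype.val) : Finset X) : Set X))
        ≤ κ + κ := add_le_add ih h1
      _ = κ := add_eq_self hκ

theorem mk_cl_le (S : Set X) {κ : Cardinal} (hκ : ℵ₀ ≤ κ) (hS : #S ≤ κ) :
    #(cl F Y S) ≤ κ := by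
  refine (mk_le_mk_of_subset (cl_subset_it S)).trans ?_
  refine mk_iUnion_le_sum_mk.trans ?_
  refine (sum_le_sum _ (fun _ => κ) fun k => mk_it_le S hκ hS k).trans ?_
  rw [sum_const', mk_nat, aleph0_mul_eq hκ]

end Closure

/-! ### The vanishing theorem -/

section Main

variable {X : Type} {R : Type} [CommRing R] {N : Type} [AddCommGroup N] [Module R N]

/-- The substitution operators `ρ Z` (set the idempotents `e x`, `x ∈ Z`, equal to `1`). -/
structure Support (e : X → R) (ρ : Set X → N →+ N) : Prop where
  idem : ∀ x, e x * e x = e x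
  supp : ∀ n : N, ∃ F : Finset X, ∀ Z : Set X, Disjoint Z (F : Set X) → ρ Z n = n
  act_mem : ∀ (Z : Set X) (x : X) (n : N), x ∈ Z → ρ Z (e x • n) = ρ Z n
  act_not : ∀ (Z : Set X) (x : X) (n : N), x ∉ Z → ρ Z (e x • n) = e x • ρ Z n

variable {e : X → R} {ρ : Set X → N →+ N}

theorem Support.act_E (h : Support e ρ) (Z : Set X) (L : List X) (hL : ∀ x ∈ L, x ∉ Z) (n : N) :
    ρ Z (E e L • n) = E e L • ρ Z n := by
  induction L with
  | nil => simp
  | cons x L ih =>
    rw [E_cons, mul_smul, mul_smul, h.act_not Z x _ (hL x List.mem_cons_self),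
      ih fun y hy => hL y (List.mem_cons_of_mem _ hy)]

variable (e) in
/-- Normalised cochains. -/
def Nrm (c : List X → N) : Prop := ∀ L, E e L • c L = c L

variable (e) in
/-- Cocycles of degree `n` on `Y`. -/
def Cocyc (Y : Set X) (n : ℕ) (c : List X → N) : Prop :=
  ∀ L : List X, L.length = n + 1 → (∀ x ∈ L, x ∈ Y) → E e L • D L c = 0

variable (e) in
/-- Coboundaries of degree `n` on `Y`. -/
def Cobd (Y : Set X) (n : ℕ) (c : List X → N) : Prop :=
  ∃ b, Nrm e b ∧ ∀ L : List X, L.length = n → (∀ x ∈ L, x ∈ Y) → c L = E e L • D L b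

/-- A cocycle restricts to a coboundary on every proper closed subset. -/
theorem Support.step (h : Support e ρ) {Y S : Set X} (hSY : S ⊆ Y) {x : X} (hxY : x ∈ Y)
    (hxS : x ∉ S) {n : ℕ} {c : List X → N} (hc : Nrm e c) (hcoc : Cocyc e Y n c)
    (hcl : ∀ L : List X, L.length = n → (∀ z ∈ L, z ∈ S) → ρ (Y \ S) (c L) = c L) :
    Cobd e S n c := by
  refine ⟨fun L => E e L • ρ (Y \ S) (c (x :: L)), ?_, ?_⟩
  · intro L
    simp only
    rw [← mul_smul, E_mul_self h.idem]
  · intro L hL hLS
    rw [E_D_E h.idem]
    have h1 := hcoc (x :: L) (by simp [hL]) (by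
      intro z hz
      rcases List.mem_cons.mp hz with rfl | hz
      · exact hxY
      · exact hSY (hLS z hz))
    rw [D_cons, smul_sub, sub_eq_zero, E_cons] at h1
    -- `e x • c L = E L • D L (c (x :: ·))`
    have h2 : e x • c L = E e L • D L (fun L' => c (x :: L')) := by
      have h3 : (e x * E e L) • c L = e x • c L := by rw [mul_smul, hc L]
      have h4 : e x • D L (fun L' => c (x :: L')) = D L (fun L' => c (x :: L')) := by
        rw [← D_smul]
        congr 1
        funext L'
        rw [← hc (x :: L'), E_cons, ← mul_smul, ← mul_assoc, h.idem]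
      rw [h3] at h1
      rw [h1, mul_comm, mul_smul, h4]
    have h5 := congrArg (ρ (Y \ S)) h2
    rw [h.act_mem (Y \ S) x _ ⟨hxY, hxS⟩, hcl L hL hLS,
      h.act_E (Y \ S) L (fun z hz hz' => hz'.2 (hLS z hz)), D_map] at h5
    exact h5

/-- The vanishing theorem: over a set of at least `ℵ n` variables, every cocycle of degree `n` is
a coboundary. -/
theorem Support.vanish (h : Support e ρ) (n : ℕ) :
    ∀ Y : Set X, ℵ_ (n : Ordinal) ≤ #Y → ∀ c : List X → N, Nrm e c → Cocyc e Y n c →
      Cobd e Y n c := by
  classical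
  induction n with
  | zero =>
    intro Y hY c hc hcoc
    obtain ⟨F, hF⟩ := h.supp (c [])
    have hinf : Y.Infinite := by
      rw [← Set.infinite_coe_iff, Cardinal.infinite_iff]
      simpa using hY
    obtain ⟨x, hxY, hxF⟩ := hinf.exists_notMem_finset F
    have h1 := hcoc [x] rfl (by simpa using hxY)
    simp only [D_cons, D_nil, sub_zero, E_cons, E_nil, mul_one] at h1
    have h2 : c [] = 0 := by
      rw [← hF {x} (by simpa using hxF), ← h.act_mem {x} x (c []) rfl, h1, map_zero]
    refine ⟨fun _ => 0, fun L => by simp, fun L hL _ => ?_⟩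
    have : L = [] := List.length_eq_zero_iff.mp hL
    subst this
    simp [h2]
  | succ n IH =>
    intro Y hY c hc hcoc
    choose F hF using fun L => h.supp (c L)
    have hlt : ℵ_ (n : Ordinal) < #Y := by
      refine lt_of_lt_of_le ?_ hY
      rw [Cardinal.aleph_lt_aleph]
      exact_mod_cast Nat.lt_succ_self n
    have hinf : ℵ₀ ≤ ℵ_ (n : Ordinal) := Cardinal.aleph0_le_aleph _
    obtain ⟨Y₀, hY₀Y, hY₀⟩ := Cardinal.le_mk_iff_exists_subset.mp hlt.le
    obtain ⟨_, _, hord⟩ := Cardinal.exists_ord_eq_type_lt Y
    let T : Set Y → Set X := fun I => cl F Y (Y₀ ∪ Subtype.val '' I)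
    have hTmono : ∀ {I J : Set Y}, I ⊆ J → T I ⊆ T J := fun hIJ =>
      cl_mono (Set.union_subset_union_right _ (Set.image_mono hIJ))
    have hTY : ∀ I, T I ⊆ Y := fun I =>
      cl_subset (Set.union_subset hY₀Y (by rintro _ ⟨x, -, rfl⟩; exact x.2))
    have hTcard : ∀ I : Set Y, #I < #Y → #(T I) < #Y := by
      intro I hI
      have hmax : max (ℵ_ (n : Ordinal)) #I < #Y := max_lt hlt hI
      refine lt_of_le_of_lt (mk_cl_le _ (hinf.trans (le_max_left _ #I)) ?_) hmax
      refine (mk_union_le _ _).trans ?_
      have h1 : #(Subtype.val '' I : Set X) ≤ #I := mk_image_le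
      calc #Y₀ + #(Subtype.val '' I : Set X) ≤ max (ℵ_ (n : Ordinal)) #I + max (ℵ_ (n : Ordinal)) #I := by
            gcongr
            · rw [hY₀]; exact le_max_left _ _
            · exact h1.trans (le_max_right _ _)
        _ = max (ℵ_ (n : Ordinal)) #I := add_eq_self (hinf.trans (le_max_left _ #I))
    have hgood : ∀ I : Set Y, #I < #Y → Cobd e (T I) (n + 1) c := by
      intro I hI
      have hne : ∃ x ∈ Y, x ∉ T I := by
        by_contra hcon
        push Not at hcon
        have := mk_le_mk_of_subset (show Y ⊆ T I from hcon)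
        exact absurd (hTcard I hI) (not_lt.mpr this)
      obtain ⟨x, hxY, hxT⟩ := hne
      refine h.step (hTY I) hxY hxT hc hcoc fun L _ hLT => hF L _ ?_
      rw [Set.disjoint_left]
      rintro z ⟨hzY, hzT⟩ hzF
      exact hzT (cl_closed _ L hLT z hzF hzY)
    -- states of the transfinite construction
    let St := {s : Set Y × (List X → N) // IsLowerSet s.1 ∧ Nrm e s.2 ∧
      ∀ L : List X, L.length = n + 1 → (∀ x ∈ L, x ∈ T s.1) → c L = E e L • D L s.2}
    let r : St → St → Prop := fun s t => s.1.1 ⊆ t.1.1 ∧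
      ∀ L : List X, L.length = n → (∀ x ∈ L, x ∈ T s.1.1) → s.1.2 L = t.1.2 L
    have rtrans : ∀ {a b c : St}, r a b → r b c → r a c := by
      intro a b c hab hbc
      refine ⟨hab.1.trans hbc.1, fun L hL hLT => ?_⟩
      rw [hab.2 L hL hLT]
      exact hbc.2 L hL fun x hx => hTmono hab.1 (hLT x hx)
    have hchain : ∀ C : Set St, IsChain r C → ∃ ub, ∀ a ∈ C, r a ub := by
      intro C hC
      rcases C.eq_empty_or_nonempty with rfl | hCne
      · obtain ⟨b, hb, hb'⟩ := hgood ∅ (by
          rw [mk_eq_zero]
          exact lt_of_lt_of_le (aleph0_pos.trans_le hinf) hlt.le)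
        exact ⟨⟨(∅, b), fun _ _ _ h => h, hb, hb'⟩, by simp⟩
      · have : Nonempty C := hCne.to_subtype
        let I : Set Y := ⋃ s : C, s.1.1.1
        have hdir : ∀ s t : C, ∃ k : C, s.1.1.1 ⊆ k.1.1.1 ∧ t.1.1.1 ⊆ k.1.1.1 := by
          intro s t
          by_cases hst : s = t
          · exact ⟨s, subset_rfl, by rw [hst]⟩
          · rcases hC s.2 t.2 (fun h => hst (Subtype.ext h)) with h1 | h1
            · exact ⟨t, h1.1, subset_rfl⟩
            · exact ⟨s, subset_rfl, h1.1⟩
        have hTI : ∀ L : List X, (∀ x ∈ L, x ∈ T I) → ∃ s : C, ∀ x ∈ L, x ∈ T s.1.1.1 := by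
          intro L hL
          refine list_in_directed (fun s : C => T s.1.1.1) ?_ L ?_
          · intro s t
            obtain ⟨k, h1, h2⟩ := hdir s t
            exact ⟨k, hTmono h1, hTmono h2⟩
          · intro z hz
            have h1 : Y₀ ∪ Subtype.val '' I = ⋃ s : C, (Y₀ ∪ Subtype.val '' s.1.1.1) := by
              rw [Set.image_iUnion, Set.union_iUnion]
            have h2 : z ∈ cl F Y (⋃ s : C, (Y₀ ∪ Subtype.val '' s.1.1.1)) := by
              rw [← h1]; exact hL z hz
            refine cl_directed _ ?_ h2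
            intro s t
            obtain ⟨k, h1, h2⟩ := hdir s t
            exact ⟨k, Set.union_subset_union_right _ (Set.image_mono h1),
              Set.union_subset_union_right _ (Set.image_mono h2)⟩
        let b : List X → N := fun L =>
          if hL : ∃ s : C, ∀ x ∈ L, x ∈ T s.1.1.1 then hL.choose.1.1.2 L else 0
        have hb : ∀ (s : C) (L : List X), L.length = n → (∀ x ∈ L, x ∈ T s.1.1.1) →
            s.1.1.2 L = b L := by
          intro s L hL hLT
          have hex : ∃ s : C, ∀ x ∈ L, x ∈ T s.1.1.1 := ⟨s, hLT⟩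
          have hbL : b L = hex.choose.1.1.2 L := dif_pos hex
          rw [hbL]
          have hspec := hex.choose_spec
          by_cases hst : s = hex.choose
          · rw [← hst]
          · rcases hC s.2 hex.choose.2 (fun h => hst (Subtype.ext h)) with h1 | h1
            · exact h1.2 L hL hLT
            · exact (h1.2 L hL hspec).symm
        refine ⟨⟨(I, b), ?_, ?_, ?_⟩, ?_⟩
        · exact isLowerSet_iUnion fun s => s.1.2.1
        · intro L
          by_cases hex : ∃ s : C, ∀ x ∈ L, x ∈ T s.1.1.1
          · have hbL : b L = hex.choose.1.1.2 L := dif_pos hex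
            simp only [hbL]
            exact hex.choose.1.2.2.1 L
          · have hbL : b L = 0 := dif_neg hex
            simp only [hbL, smul_zero]
        · intro L hL hLT
          obtain ⟨s, hs⟩ := hTI L hLT
          rw [s.1.2.2.2 L hL hs]
          congr 1
          apply D_congr
          intro L' hL' hmem
          exact hb s L' (by omega) fun x hx => hs x (hmem x hx)
        · intro a ha
          exact ⟨Set.subset_iUnion (fun s : C => s.1.1.1) ⟨a, ha⟩, fun L hL hLT => hb ⟨a, ha⟩ L hL hLT⟩
    obtain ⟨m, hm⟩ := exists_maximal_of_chains_bounded hchain rtrans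
    by_cases huniv : m.1.1 = Set.univ
    · refine ⟨m.1.2, m.2.2.1, fun L hL hLY => m.2.2.2 L hL fun x hx => ?_⟩
      rw [huniv]
      exact subset_cl _ (Or.inr ⟨⟨x, hLY x hx⟩, trivial, rfl⟩)
    · exfalso
      have hne : (m.1.1)ᶜ.Nonempty := Set.nonempty_compl.mpr huniv
      let y := wellFounded_lt.min (m.1.1)ᶜ hne
      have hy : y ∉ m.1.1 := wellFounded_lt.min_mem (m.1.1)ᶜ hne
      have hlt' : ∀ z, z < y → z ∈ m.1.1 := by
        intro z hz
        by_contra hcon
        exact wellFounded_lt.not_lt_min (m.1.1)ᶜ hcon hz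
      have hmlt : ∀ z ∈ m.1.1, z < y := by
        intro z hz
        by_contra hcon
        exact hy (m.2.1 (not_lt.mp hcon) hz)
      let I' : Set Y := Set.Iic y
      have hI'card : #I' < #Y := by
        have h1 : I' = insert y (Set.Iio y) := (Set.Iio_insert).symm
        rw [h1]
        refine lt_of_le_of_lt mk_insert_le ?_
        refine add_lt_of_lt (hinf.trans hlt.le) (mk_Iio_lt y hord) ?_
        exact one_lt_aleph0.trans_le (hinf.trans hlt.le)
      obtain ⟨b', hb', hb'c⟩ := hgood I' hI'card
      have hmI' : m.1.1 ⊆ I' := fun z hz => (hmlt z hz).le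
      have hcard0 : ℵ_ (n : Ordinal) ≤ #(T m.1.1) := by
        rw [← hY₀]
        exact mk_le_mk_of_subset (Set.subset_union_left.trans (subset_cl _))
      obtain ⟨a, ha, ha'⟩ := IH (T m.1.1) hcard0 (fun L => b' L - m.1.2 L)
        (fun L => by rw [smul_sub, hb' L, m.2.2.1 L])
        (fun L hL hLT => by
          rw [D_sub, smul_sub, ← m.2.2.2 L hL hLT,
            ← hb'c L hL (fun x hx => hTmono hmI' (hLT x hx)), sub_self])
      let b'' : List X → N := fun L => b' L - E e L • D L a
      have ht : IsLowerSet I' ∧ Nrm e b'' ∧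
          ∀ L : List X, L.length = n + 1 → (∀ x ∈ L, x ∈ T I') → c L = E e L • D L b'' := by
        refine ⟨isLowerSet_Iic y, fun L => ?_, fun L hL hLT => ?_⟩
        · simp only [b'']
          rw [smul_sub, hb' L, ← mul_smul, E_mul_self h.idem]
        · simp only [b'']
          rw [D_sub, smul_sub, ← hb'c L hL hLT, E_D_E h.idem, D_D, smul_zero, sub_zero]
      have hrt : r m ⟨(I', b''), ht⟩ := by
        refine ⟨hmI', fun L hL hLT => ?_⟩
        have h7 : b' L - m.1.2 L = E e L • D L a := ha' L hL hLT
        simp only [b'']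
        rw [← h7]
        abel
      have := (hm _ hrt).1
      exact hy (this (show y ∈ I' from le_rfl))

end Main

end Pool.Agent.H3.Cochain
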