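import Pool.Agent.H3.Cochain

set_option autoImplicit false

namespace Pool.Agent.H3.Resol

open Pool.Agent.H3.Cochain

variable {X : Type} {R : Type} [CommRing R] (e : X → R)

/-- Prepend a letter. -/
noncomputable def consL (R : Type) [CommRing R] (x : X) : (List X →₀ R) →ₗ[R] (List X →₀ R) :=
  Finsupp.lmapDomain R R (List.cons x)

theorem consL_single (x : X) (L : List X) (r : R) :
    consL R x (Finsupp.single L r) = Finsupp.single (x :: L) r := by
  simp [consL, Finsupp.lmapDomain_apply, Finsupp.mapDomain_single]

theorem consL_apply_cons (x : X) (z : List X →₀ R) (L : List X) :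
    consL R x z (x :: L) = z L := by
  simp only [consL, Finsupp.lmapDomain_apply]
  exact Finsupp.mapDomain_apply List.cons_injective z L

theorem consL_apply_ne (x : X) (z : List X →₀ R) (L : List X) (h : ∀ L', L ≠ x :: L') :
    consL R x z L = 0 := by
  simp only [consL, Finsupp.lmapDomain_apply]
  apply Finsupp.mapDomain_of_notMem_range
  rintro ⟨L', hL'⟩
  exact h L' hL'.symm

/-- Boundary of a basis element. -/
noncomputable def dB (R : Type) [CommRing R] : List X → (List X →₀ R)
  | [] => 0
  | x :: L => Finsupp.single L 1 - consL R x (dB R L)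

theorem dB_nil : dB R ([] : List X) = 0 := rfl

theorem dB_cons (x : X) (L : List X) :
    dB R (x :: L) = Finsupp.single L 1 - consL R x (dB R L) := rfl

/-- The boundary. -/
noncomputable def d (X : Type) (R : Type) [CommRing R] : (List X →₀ R) →ₗ[R] (List X →₀ R) :=
  Finsupp.linearCombination R (dB R)

theorem d_single (L : List X) (r : R) : d X R (Finsupp.single L r) = r • dB R L := by
  simp [d, Finsupp.linearCombination_single]

theorem d_consL (x : X) (z : List X →₀ R) :
    d X R (consL R x z) = z - consL R x (d X R z) := by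
  induction z using Finsupp.induction_linear with
  | zero => simp
  | add f g hf hg => rw [map_add, map_add, map_add, map_add, hf, hg]; abel
  | single L r =>
    rw [consL_single, d_single, d_single, dB_cons, smul_sub, map_smul, Finsupp.smul_single,
      smul_eq_mul, mul_one]

theorem d_dB (L : List X) : d X R (dB R L) = 0 := by
  induction L with
  | nil => simp [dB_nil]
  | cons x L ih =>
    rw [dB_cons, map_sub, d_single, one_smul, d_consL, ih, map_zero, sub_zero, sub_self]

theorem d_d (z : List X →₀ R) : d X R (d X R z) = 0 := by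
  induction z using Finsupp.induction_linear with
  | zero => simp
  | add f g hf hg => rw [map_add, map_add, hf, hg, add_zero]
  | single L r => rw [d_single, map_smul, d_dB, smul_zero]

/-- The submodule of normalised chains of length `n`. -/
def P (n : ℕ) : Submodule R (List X →₀ R) where
  carrier := {p | ∀ L, (L.length ≠ n → p L = 0) ∧ E e L * p L = p L}
  zero_mem' := by intro L; simp
  add_mem' := by
    intro p q hp hq L
    refine ⟨fun h => ?_, ?_⟩
    · rw [Finsupp.add_apply, (hp L).1 h, (hq L).1 h, add_zero]
    · rw [Finsupp.add_apply, mul_add, (hp L).2, (hq L).2]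
  smul_mem' := by
    intro r p hp L
    refine ⟨fun h => ?_, ?_⟩
    · rw [Finsupp.smul_apply, (hp L).1 h, smul_zero]
    · rw [Finsupp.smul_apply, smul_eq_mul, mul_left_comm, (hp L).2]

theorem mem_P {n : ℕ} {p : List X →₀ R} :
    p ∈ P e n ↔ ∀ L, (L.length ≠ n → p L = 0) ∧ E e L * p L = p L := Iff.rfl

variable {e}

section idem
variable (he : ∀ x, e x * e x = e x)

include he in
theorem single_mem_P (L : List X) (r : R) : Finsupp.single L (E e L * r) ∈ P e L.length := by
  classical
  intro L'
  rw [Finsupp.single_apply]
  split_ifs with h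
  · subst h
    exact ⟨fun h => absurd rfl h, by rw [← mul_assoc, E_mul_self he]⟩
  · simp

theorem consL_mem_P {n : ℕ} (x : X) (z : List X →₀ R) (hz : z ∈ P e n) (h : e x • z = z) :
    consL R x z ∈ P e (n + 1) := by
  intro L
  by_cases hL : ∃ L', L = x :: L'
  · obtain ⟨L', rfl⟩ := hL
    rw [consL_apply_cons]
    refine ⟨fun hlen => (hz L').1 (by simpa using hlen), ?_⟩
    rw [E_cons, mul_assoc, (hz L').2, ← smul_eq_mul, ← Finsupp.smul_apply, h]
  · push Not at hL
    rw [consL_apply_ne x z L hL]
    simp

include he in
theorem E_dB_mem (L : List X) : E e L • dB R L ∈ P e (L.length - 1) := by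
  induction L with
  | nil => simp [dB_nil]
  | cons x L ih =>
    rw [dB_cons, smul_sub]
    refine Submodule.sub_mem _ ?_ ?_
    · rw [Finsupp.smul_single, smul_eq_mul, mul_one, E_cons, mul_comm]
      exact single_mem_P he L (e x)
    · cases L with
      | nil => simp [dB_nil]
      | cons y L =>
        rw [E_cons, mul_smul, ← map_smul, ← map_smul]
        refine consL_mem_P x _ (Submodule.smul_mem _ _ ih) ?_
        rw [← mul_smul, he]

theorem P_eq_sum {n : ℕ} (p : List X →₀ R) (hp : p ∈ P e n) :
    p = p.sum fun L r => r • Finsupp.single L (E e L) := by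
  conv_lhs => rw [← Finsupp.sum_single p]
  apply Finsupp.sum_congr
  intro L _
  rw [Finsupp.smul_single, smul_eq_mul, mul_comm, (hp L).2]

theorem P_ext {n : ℕ} {N : Type} [AddCommGroup N] [Module R N] (f g : (List X →₀ R) →ₗ[R] N)
    (h : ∀ L : List X, L.length = n → f (Finsupp.single L (E e L)) = g (Finsupp.single L (E e L)))
    (p : List X →₀ R) (hp : p ∈ P e n) : f p = g p := by
  rw [P_eq_sum p hp, map_finsuppSum, map_finsuppSum]
  apply Finsupp.sum_congr
  intro L hL
  rw [map_smul, map_smul, h L]
  by_contra hne
  exact (Finsupp.mem_support_iff.mp hL) ((hp L).1 hne)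

include he in
theorem d_mem_P {n : ℕ} (p : List X →₀ R) (hp : p ∈ P e (n + 1)) : d X R p ∈ P e n := by
  rw [P_eq_sum p hp, map_finsuppSum]
  refine Submodule.sum_mem _ fun L hL => ?_
  beta_reduce
  rw [map_smul, d_single]
  refine Submodule.smul_mem _ _ ?_
  have hlen : L.length = n + 1 := by
    by_contra hne
    exact (Finsupp.mem_support_iff.mp hL) ((hp L).1 hne)
  have := E_dB_mem he L
  rwa [hlen] at this

/-- The syzygies. -/
noncomputable def K (e : X → R) (n : ℕ) : Submodule R (List X →₀ R) := (P e n).map (d X R)

include he in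
theorem K_le (n : ℕ) : K e (n + 1) ≤ P e n := by
  rintro _ ⟨p, hp, rfl⟩
  exact d_mem_P he p hp

include he in
/-- Exactness in positive degrees. -/
theorem exact_pos {n : ℕ} (z : List X →₀ R) (hz : z ∈ P e (n + 1)) (hdz : d X R z = 0) :
    z ∈ K e (n + 2) := by
  classical
  have h1 : ∀ x, e x • z ∈ K e (n + 2) := by
    intro x
    refine ⟨consL R x (e x • z), consL_mem_P x _ (Submodule.smul_mem _ _ hz) ?_, ?_⟩
    · rw [← mul_smul, he]
    · rw [d_consL, map_smul, hdz, smul_zero, map_zero, sub_zero]
  have h2 : ∀ F : Finset X, z - (∏ x ∈ F, (1 - e x)) • z ∈ K e (n + 2) := by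
    intro F
    induction F using Finset.induction_on with
    | empty => simp
    | insert x F hx ih =>
      rw [Finset.prod_insert hx]
      have : z - ((1 - e x) * ∏ x ∈ F, (1 - e x)) • z
          = (z - (∏ x ∈ F, (1 - e x)) • z) + (∏ x ∈ F, (1 - e x)) • e x • z := by
        module
      rw [this]
      exact Submodule.add_mem _ ih (Submodule.smul_mem _ _ (h1 x))
  let F : Finset X := z.support.biUnion fun L => L.toFinset
  have h3 : (∏ x ∈ F, (1 - e x)) • z = 0 := by
    ext L
    rw [Finsupp.smul_apply, smul_eq_mul, Finsupp.zero_apply]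
    by_cases hL : z L = 0
    · rw [hL, mul_zero]
    · cases L with
      | nil => exact absurd ((hz []).1 (by simp)) hL
      | cons y L =>
        have hy : y ∈ F := by
          simp only [F, Finset.mem_biUnion, List.mem_toFinset]
          exact ⟨y :: L, Finsupp.mem_support_iff.mpr hL, List.mem_cons_self⟩
        rw [← Finset.mul_prod_erase F _ hy, ← (hz (y :: L)).2, E_cons]
        have : (1 - e y) * e y = 0 := by rw [sub_mul, one_mul, he, sub_self]
        calc _ = ((1 - e y) * e y) * ((∏ x ∈ F.erase y, (1 - e x)) * E e L * z (y :: L)) := by ring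
          _ = 0 := by rw [this, zero_mul]
  have := h2 F
  rwa [h3, sub_zero] at this

include he in
/-- Exactness in degree zero. -/
theorem exact_zero (z : List X →₀ R) (hz : z ∈ P e 0)
    (h : z [] ∈ Ideal.span (Set.range e)) : z ∈ K e 1 := by
  have h1 : z = Finsupp.single [] (z []) := by
    ext L
    cases L with
    | nil => simp
    | cons y L =>
      rw [(hz (y :: L)).1 (by simp), Finsupp.single_apply, if_neg (by simp)]
  rw [h1]
  generalize z [] = r at h
  induction h using Submodule.span_induction with
  | mem r hr =>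
    obtain ⟨x, rfl⟩ := hr
    refine ⟨Finsupp.single [x] (e x), ?_, ?_⟩
    · have := single_mem_P he [x] 1
      simpa [E_cons] using this
    · rw [d_single, dB_cons, dB_nil, map_zero, sub_zero, Finsupp.smul_single, smul_eq_mul, mul_one]
  | zero => simp
  | add a b _ _ ha hb => rw [Finsupp.single_add]; exact Submodule.add_mem _ ha hb
  | smul a b _ hb =>
    rw [← Finsupp.smul_single]; exact Submodule.smul_mem _ _ hb

theorem exact_zero' (z : List X →₀ R) (hz : z ∈ K e 1) :
    z [] ∈ Ideal.span (Set.range e) := by
  classical
  obtain ⟨p, hp, rfl⟩ := hz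
  rw [P_eq_sum p hp, map_finsuppSum, Finsupp.sum, Finsupp.finsetSum_apply]
  refine Submodule.sum_mem _ fun L hL => ?_
  have hlen : L.length = 1 := by
    by_contra hne
    exact (Finsupp.mem_support_iff.mp hL) ((hp L).1 hne)
  obtain ⟨x, rfl⟩ := List.length_eq_one_iff.mp hlen
  rw [map_smul, d_single, dB_cons, dB_nil, map_zero, sub_zero, E_cons, E_nil, mul_one,
    Finsupp.smul_single, Finsupp.smul_single, Finsupp.single_eq_same]
  simp only [smul_eq_mul, mul_one]
  exact Ideal.mul_mem_left _ _ (Ideal.subset_span ⟨x, rfl⟩)

/-- The projection onto normalised chains. -/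
noncomputable def proj (e : X → R) (n : ℕ) : (List X →₀ R) →ₗ[R] (List X →₀ R) :=
  Finsupp.linearCombination R fun L => if L.length = n then Finsupp.single L (E e L) else 0

theorem proj_apply (n : ℕ) (p : List X →₀ R) (L : List X) :
    proj e n p L = if L.length = n then E e L * p L else 0 := by
  classical
  induction p using Finsupp.induction_linear with
  | zero => simp
  | add f g hf hg => rw [map_add, Finsupp.add_apply, hf, hg]; split_ifs <;> simp [mul_add]
  | single L' r =>
    rw [proj, Finsupp.linearCombination_single]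
    by_cases h : L' = L
    · subst h
      by_cases h2 : L'.length = n
      · simp [h2, mul_comm]
      · simp [h2]
    · by_cases h2 : L'.length = n
      · rw [if_pos h2, Finsupp.smul_single, Finsupp.single_apply, Finsupp.single_apply,
          if_neg h, if_neg h]
        simp
      · rw [if_neg h2, Finsupp.single_apply, if_neg h]
        simp

include he in
theorem projective_P (n : ℕ) : Module.Projective R (P e n) := by
  have h1 : ∀ p, proj e n p ∈ P e n := by
    intro p L
    rw [proj_apply]
    refine ⟨fun h => if_neg h, ?_⟩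
    split_ifs with h
    · rw [← mul_assoc, E_mul_self he]
    · simp
  have h2 : ∀ p ∈ P e n, proj e n p = p := by
    intro p hp
    ext L
    rw [proj_apply]
    split_ifs with h
    · exact (hp L).2
    · exact ((hp L).1 h).symm
  refine Module.Projective.of_split (P e n).subtype ((proj e n).codRestrict (P e n) h1) ?_
  ext1 p
  exact Subtype.ext (h2 p.1 p.2)

end idem

/-! ### The extension property -/

theorem lc_dB {N : Type} [AddCommGroup N] [Module R N] (c : List X → N) (L : List X) :
    Finsupp.linearCombination R c (dB R L) = D L c := by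
  induction L generalizing c with
  | nil => simp [dB_nil]
  | cons x L ih =>
    rw [dB_cons, map_sub, Finsupp.linearCombination_single, one_smul, D_cons, ← ih]
    congr 1
    have : Finsupp.linearCombination R c ∘ₗ consL R x
        = Finsupp.linearCombination R (fun L' => c (x :: L')) := by
      ext L'
      simp [consL_single]
    exact LinearMap.congr_fun this (dB R L)

theorem extend_of_support {N : Type} [AddCommGroup N] [Module R N] {ρ : Set X → N →+ N}
    (h : Support e ρ) (n : ℕ) (hX : Cardinal.aleph ((n + 1 : ℕ) : Ordinal) ≤ Cardinal.mk X)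
    (f : K e (n + 1) →ₗ[R] N) :
    ∃ g : (List X →₀ R) →ₗ[R] N, ∀ z : K e (n + 1), g z.1 = f z := by
  classical
  have he := h.idem
  have hmem : ∀ L : List X, L.length = n + 1 → d X R (Finsupp.single L (E e L)) ∈ K e (n + 1) := by
    intro L hL
    refine ⟨_, ?_, rfl⟩
    have := single_mem_P he L 1
    rwa [mul_one, hL] at this
  let c : List X → N := fun L => if hL : L.length = n + 1 then f ⟨_, hmem L hL⟩ else 0
  have hc : ∀ L (hL : L.length = n + 1), c L = f ⟨_, hmem L hL⟩ := fun L hL => dif_pos hL
  have hN : Nrm e c := by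
    intro L
    by_cases hL : L.length = n + 1
    · rw [hc L hL, ← map_smul]
      congr 1
      apply Subtype.ext
      change E e L • d X R (Finsupp.single L (E e L)) = _
      rw [← map_smul, Finsupp.smul_single, smul_eq_mul, E_mul_self he]
    · have : c L = 0 := dif_neg hL
      rw [this, smul_zero]
  let φ := Finsupp.linearCombination R c
  -- `φ` and `f ∘ d` agree on `P (n+1)`
  have hφ : ∀ (p : List X →₀ R) (hp : p ∈ P e (n + 1)), φ p = f ⟨d X R p, p, hp, rfl⟩ := by
    intro p hp
    let g : P e (n + 1) →ₗ[R] N :=
      f ∘ₗ ((d X R).restrict (p := P e (n + 1)) (q := K e (n + 1)) fun q hq => ⟨q, hq, rfl⟩)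
    have hg : ∀ q : P e (n + 1), g q = f ⟨d X R q.1, q.1, q.2, rfl⟩ := fun q => rfl
    have hps : (⟨p, hp⟩ : P e (n + 1)) = ∑ L ∈ p.support.attach, p L.1 •
        (⟨Finsupp.single L.1 (E e L.1), by
          have := single_mem_P he L.1 1
          rw [mul_one] at this
          have hlen : L.1.length = n + 1 := by
            by_contra hne
            exact (Finsupp.mem_support_iff.mp L.2) ((hp L.1).1 hne)
          rwa [hlen] at this⟩ : P e (n + 1)) := by
      apply Subtype.ext
      rw [Submodule.coe_sum]
      simp only [Submodule.coe_smul]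
      rw [Finset.sum_attach p.support (fun L => p L • Finsupp.single L (E e L))]
      exact P_eq_sum p hp
    have h1 : g ⟨p, hp⟩ = ∑ L ∈ p.support, p L • c L := by
      rw [hps, map_sum, ← Finset.sum_attach p.support]
      apply Finset.sum_congr rfl
      intro L _
      have hlen : L.1.length = n + 1 := by
        by_contra hne
        exact (Finsupp.mem_support_iff.mp L.2) ((hp L.1).1 hne)
      rw [map_smul, hg, hc L.1 hlen]
    rw [← hg ⟨p, hp⟩, h1]
    rfl
  have hcoc : Cocyc e Set.univ (n + 1) c := by
    intro L hL _
    rw [← lc_dB (R := R) c L, ← map_smul]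
    have h1 : E e L • dB R L ∈ P e (n + 1) := by
      have := E_dB_mem he L
      rwa [hL] at this
    rw [hφ _ h1]
    have : (⟨d X R (E e L • dB R L), E e L • dB R L, h1, rfl⟩ : K e (n + 1)) = 0 := by
      apply Subtype.ext
      change d X R (E e L • dB R L) = 0
      rw [map_smul, d_dB, smul_zero]
    rw [this, map_zero]
  obtain ⟨b, hb, hb'⟩ := h.vanish (n + 1) Set.univ (by rwa [Cardinal.mk_univ]) c hN hcoc
  refine ⟨Finsupp.linearCombination R b, ?_⟩
  rintro ⟨_, p, hp, rfl⟩
  rw [← hφ p hp]
  change (Finsupp.linearCombination R b ∘ₗ d X R) p = φ p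
  refine P_ext _ _ ?_ p hp
  intro L hL
  rw [LinearMap.comp_apply, d_single, map_smul, lc_dB, Finsupp.linearCombination_single,
    ← hb' L hL (fun _ _ => trivial), hN L]

end Pool.Agent.H3.Resol
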